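import Pool.Agent.H9.Semi4

namespace Pool.Agent.Results.MP_0bba66_co.Counter

open Finset Pool.Agent.H9.Semi

/-- Semiintersecting families: `A` and `B` are the two summands of `Fin N ⊕ Fin N`. -/
def SemiInt (k N : ℕ) (F : Finset (Finset (Fin N ⊕ Fin N))) : Prop :=
  (∀ S ∈ F, S.toLeft.card = k ∧ S.toRight.card = k) ∧
    ∀ S ∈ F, ∀ T ∈ F, S ≠ T →
      Xor (S.toLeft ∩ T.toLeft).Nonempty (S.toRight ∩ T.toRight).Nonempty

/-- The largest size of a semiintersecting family with parameters `(k, N)`. -/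
noncomputable def f (k N : ℕ) : ℕ :=
  sSup {m : ℕ | ∃ F : Finset (Finset (Fin N ⊕ Fin N)), SemiInt k N F ∧ F.card = m}

lemma small (Y : ℕ → Finset (Fin 20)) (hY : ∀ a < 10, (Y a).card = 6) (T : Finset ℕ)
    (hT : ∀ a ∈ T, a < 10) (hd : ∀ a ∈ T, ∀ b ∈ T, a ≠ b → ¬ (Y a ∩ Y b).Nonempty) :
    T.card ≤ 3 := by
  have h1 : (T.biUnion Y).card = ∑ a ∈ T, (Y a).card :=
    card_biUnion fun a ha b hb hab => by
      have := hd a ha b hb hab
      rw [not_nonempty_iff_eq_empty] at this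
      exact disjoint_iff_inter_eq_empty.2 this
  rw [sum_congr rfl fun a ha => hY a (hT a ha), sum_const, smul_eq_mul] at h1
  have h2 := card_le_univ (T.biUnion Y)
  rw [Fintype.card_fin] at h2
  omega

lemma mult (X Y : ℕ → Finset (Fin 20)) (hX : ∀ a < 10, (X a).card = 6)
    (hY : ∀ a < 10, (Y a).card = 6)
    (h : ∀ a < 10, ∀ b < 10, a ≠ b → (X a ∩ X b).Nonempty → ¬ (Y a ∩ Y b).Nonempty)
    (p : Fin 20) : ((range 10).filter fun a => p ∈ X a).card = 3 := by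
  have h1 : ∀ q ∈ (univ : Finset (Fin 20)), ((range 10).filter fun a => q ∈ X a).card ≤ 3 :=
    fun q _ => small Y hY _ (fun a ha => mem_range.1 (mem_filter.1 ha).1) fun a ha b hb hab =>
      h a (mem_range.1 (mem_filter.1 ha).1) b (mem_range.1 (mem_filter.1 hb).1) hab
        ⟨q, mem_inter.2 ⟨(mem_filter.1 ha).2, (mem_filter.1 hb).2⟩⟩
  have h2 : ∑ q : Fin 20, ((range 10).filter fun a => q ∈ X a).card = ∑ _q : Fin 20, 3 := by
    simp only [card_filter]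
    rw [sum_comm]
    have : ∀ a ∈ range 10, (∑ q : Fin 20, if q ∈ X a then 1 else 0) = 6 := fun a ha => by
      rw [← card_filter, filter_mem_eq_inter, univ_inter, hX a (mem_range.1 ha)]
    rw [sum_congr rfl this]
    simp
  exact (sum_eq_sum_iff_of_le h1).1 h2 p (mem_univ p)

lemma third (X : ℕ → Finset (Fin 20))
    (hm : ∀ p : Fin 20, ((range 10).filter fun a => p ∈ X a).card = 3) (a b : ℕ)
    (h : (X a ∩ X b).Nonempty) :
    ∃ c, c < 10 ∧ c ≠ a ∧ c ≠ b ∧ (X a ∩ X c).Nonempty ∧ (X b ∩ X c).Nonempty := by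
  obtain ⟨p, hp⟩ := h
  rw [mem_inter] at hp
  have h1 : ({a, b} : Finset ℕ).card < ((range 10).filter fun a => p ∈ X a).card := by
    rw [hm]; exact lt_of_le_of_lt card_le_two (by norm_num)
  obtain ⟨c, hc, hc'⟩ := exists_mem_notMem_of_card_lt_card h1
  simp only [mem_filter, mem_range, mem_insert, mem_singleton, not_or] at hc hc'
  exact ⟨c, hc.1, hc'.1, hc'.2, ⟨p, mem_inter.2 ⟨hp.1, hc.2⟩⟩, ⟨p, mem_inter.2 ⟨hp.2, hc.2⟩⟩⟩

lemma away (X : ℕ → Finset (Fin 20)) (hX : ∀ a, (X a).card ≤ 6)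
    (hm : ∀ p : Fin 20, ((range 10).filter fun a => p ∈ X a).card = 3) (a b c : ℕ) :
    ∃ x y z, x < 10 ∧ y < 10 ∧ z < 10 ∧ x ≠ y ∧ x ≠ z ∧ y ≠ z ∧
    (x ≠ a ∧ x ≠ b ∧ x ≠ c) ∧ (y ≠ a ∧ y ≠ b ∧ y ≠ c) ∧ (z ≠ a ∧ z ≠ b ∧ z ≠ c) ∧
    (X x ∩ X y).Nonempty ∧ (X x ∩ X z).Nonempty ∧ (X y ∩ X z).Nonempty := by
  have h1 : (X a ∪ X b ∪ X c).card < (univ : Finset (Fin 20)).card := by
    have h2 := card_union_le (X a ∪ X b) (X c)
    have h3 := card_union_le (X a) (X b)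
    have := hX a; have := hX b; have := hX c
    rw [card_univ, Fintype.card_fin]; omega
  obtain ⟨p, -, hp⟩ := exists_mem_notMem_of_card_lt_card h1
  simp only [mem_union, not_or] at hp
  obtain ⟨x, y, z, h2, h3, h4, h5⟩ := card_eq_three.1 (hm p)
  have mem : ∀ v ∈ ({x, y, z} : Finset ℕ), v < 10 ∧ p ∈ X v ∧ (v ≠ a ∧ v ≠ b ∧ v ≠ c) := by
    intro v hv
    rw [← h5, mem_filter, mem_range] at hv
    refine ⟨hv.1, hv.2, ?_, ?_, ?_⟩ <;> rintro rfl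
    · exact hp.1.1 hv.2
    · exact hp.1.2 hv.2
    · exact hp.2 hv.2
  have hx := mem x (by simp)
  have hy := mem y (by simp)
  have hz := mem z (by simp)
  exact ⟨x, y, z, hx.1, hy.1, hz.1, h2, h3, h4, hx.2.2, hy.2.2, hz.2.2,
    ⟨p, mem_inter.2 ⟨hx.2.1, hy.2.1⟩⟩, ⟨p, mem_inter.2 ⟨hx.2.1, hz.2.1⟩⟩,
    ⟨p, mem_inter.2 ⟨hy.2.1, hz.2.1⟩⟩⟩

lemma four (X : ℕ → Finset (Fin 20)) (hX : ∀ a < 10, (X a).card = 6) {a b c d : ℕ}
    (ha : a < 10) (hb : b < 10) (hc : c < 10) (hd : d < 10) (h1 : a ≠ b) (h2 : a ≠ c)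
    (h3 : a ≠ d) (h4 : b ≠ c) (h5 : b ≠ d) (h6 : c ≠ d) (e1 : ¬ (X a ∩ X b).Nonempty)
    (e2 : ¬ (X a ∩ X c).Nonempty) (e3 : ¬ (X a ∩ X d).Nonempty) (e4 : ¬ (X b ∩ X c).Nonempty)
    (e5 : ¬ (X b ∩ X d).Nonempty) (e6 : ¬ (X c ∩ X d).Nonempty) : False := by
  have h := small X hX {a, b, c, d} (by simp [ha, hb, hc, hd]) (by
    intro x hx y hy hxy
    simp only [mem_insert, mem_singleton] at hx hy
    rcases hx with rfl | rfl | rfl | rfl <;> rcases hy with rfl | rfl | rfl | rfl <;>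
      first | exact absurd rfl hxy | assumption | (rw [inter_comm]; assumption))
  rw [card_insert_of_notMem (by simp [h1, h2, h3]), card_insert_of_notMem (by simp [h4, h5]),
    card_pair h6] at h
  omega

lemma core (X Y : ℕ → Finset (Fin 20)) (hX : ∀ a < 10, (X a).card = 6)
    (hY : ∀ a < 10, (Y a).card = 6) (hX' : ∀ a, (X a).card ≤ 6) (hY' : ∀ a, (Y a).card ≤ 6)
    (h : ∀ a < 10, ∀ b < 10, a ≠ b → Xor (X a ∩ X b).Nonempty (Y a ∩ Y b).Nonempty) :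
    False := by
  classical
  have hXY : ∀ a < 10, ∀ b < 10, a ≠ b → (X a ∩ X b).Nonempty → ¬ (Y a ∩ Y b).Nonempty :=
    fun a ha b hb hab h1 h2 => by rcases h a ha b hb hab with h3 | h3 <;> tauto
  have hYX : ∀ a < 10, ∀ b < 10, a ≠ b → (Y a ∩ Y b).Nonempty → ¬ (X a ∩ X b).Nonempty :=
    fun a ha b hb hab h1 h2 => hXY a ha b hb hab h2 h1
  have hn : ∀ a < 10, ∀ b < 10, a ≠ b → ¬ (Y a ∩ Y b).Nonempty → (X a ∩ X b).Nonempty :=
    fun a ha b hb hab h1 => by rcases h a ha b hb hab with h3 | h3 <;> tauto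
  have mX := mult X Y hX hY hXY
  have mY := mult Y X hY hX hYX
  let G : ℕ → ℕ → ℕ := fun a b => if (Y a ∩ Y b).Nonempty then 1 else 0
  have g1 : ∀ a b, G a b = 1 ↔ (Y a ∩ Y b).Nonempty := fun a b => by
    simp only [G]; split_ifs with e <;> simp only [e] <;> norm_num
  have g0 : ∀ a b, G a b = 0 ↔ ¬ (Y a ∩ Y b).Nonempty := fun a b => by
    simp only [G]; split_ifs with e <;> simp only [e] <;> norm_num
  have gl : ∀ a b, G a b < 2 := fun a b => by simp only [G]; split_ifs <;> norm_num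
  refine Pool.Agent.H9.SemiO.no_good G ⟨gl, fun a b => by simp only [G, inter_comm (Y a)], ?_, ?_, ?_⟩
  · intro s a b c d ha hb hc hd h1 h2 h3 h4 h5 h6 e1 e2 e3 e4 e5 e6
    have := gl a b
    obtain rfl | rfl : s = 0 ∨ s = 1 := by omega
    · rw [g0] at e1 e2 e3 e4 e5 e6
      exact four Y hY ha hb hc hd h1 h2 h3 h4 h5 h6 e1 e2 e3 e4 e5 e6
    · rw [g1] at e1 e2 e3 e4 e5 e6
      exact four X hX ha hb hc hd h1 h2 h3 h4 h5 h6 (hYX _ ha _ hb h1 e1) (hYX _ ha _ hc h2 e2)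
        (hYX _ ha _ hd h3 e3) (hYX _ hb _ hc h4 e4) (hYX _ hb _ hd h5 e5) (hYX _ hc _ hd h6 e6)
  · intro a b ha hb hab
    by_cases e : (Y a ∩ Y b).Nonempty
    · obtain ⟨c, h1, h2, h3, h4, h5⟩ := third Y mY a b e
      exact ⟨c, h1, h2, h3, by rw [(g1 _ _).2 e, (g1 _ _).2 h4],
        by rw [(g1 _ _).2 e, (g1 _ _).2 h5]⟩
    · obtain ⟨c, h1, h2, h3, h4, h5⟩ := third X mX a b (hn a ha b hb hab e)
      exact ⟨c, h1, h2, h3, by rw [(g0 _ _).2 e, (g0 _ _).2 (hXY _ ha _ h1 h2.symm h4)],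
        by rw [(g0 _ _).2 e, (g0 _ _).2 (hXY _ hb _ h1 h3.symm h5)]⟩
  · intro s a b c hs
    obtain rfl | rfl : s = 0 ∨ s = 1 := by omega
    · obtain ⟨x, y, z, h1, h2, h3, h4, h5, h6, h7, h8, h9, e1, e2, e3⟩ := away X hX' mX a b c
      exact ⟨x, y, z, h1, h2, h3, h4, h5, h6, h7, h8, h9, (g0 _ _).2 (hXY _ h1 _ h2 h4 e1),
        (g0 _ _).2 (hXY _ h1 _ h3 h5 e2), (g0 _ _).2 (hXY _ h2 _ h3 h6 e3)⟩
    · obtain ⟨x, y, z, h1, h2, h3, h4, h5, h6, h7, h8, h9, e1, e2, e3⟩ := away Y hY' mY a b c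
      exact ⟨x, y, z, h1, h2, h3, h4, h5, h6, h7, h8, h9, (g1 _ _).2 e1, (g1 _ _).2 e2,
        (g1 _ _).2 e3⟩

lemma card_le (F : Finset (Finset (Fin 20 ⊕ Fin 20))) (hF : SemiInt 6 20 F) : F.card ≤ 9 := by
  by_contra hc
  obtain ⟨E, hE, hcard⟩ := exists_subset_card_eq (show 10 ≤ F.card by omega)
  let e := (E.equivFinOfCardEq hcard).symm
  let v : ℕ → Finset (Fin 20 ⊕ Fin 20) := fun a => if h : a < 10 then (e ⟨a, h⟩).1 else ∅
  have hv : ∀ a < 10, v a ∈ F := fun a ha => by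
    simp only [v, dif_pos ha]; exact hE (e ⟨a, ha⟩).2
  have hv' : ∀ a, ¬ a < 10 → v a = ∅ := fun a ha => by simp only [v, dif_neg ha]
  have hi : ∀ a < 10, ∀ b < 10, a ≠ b → v a ≠ v b := fun a ha b hb hab h => by
    simp only [v, dif_pos ha, dif_pos hb] at h
    exact hab (congrArg Fin.val (e.injective (Subtype.ext h)))
  refine core (fun a => (v a).toLeft) (fun a => (v a).toRight) (fun a ha => (hF.1 _ (hv a ha)).1)
    (fun a ha => (hF.1 _ (hv a ha)).2) (fun a => ?_) (fun a => ?_)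
    fun a ha b hb hab => hF.2 _ (hv a ha) _ (hv b hb) (hi a ha b hb hab)
  · by_cases ha : a < 10
    · exact (hF.1 _ (hv a ha)).1.le
    · simp only [hv' a ha]; decide
  · by_cases ha : a < 10
    · exact (hF.1 _ (hv a ha)).2.le
    · simp only [hv' a ha]; decide

theorem result : f 6 20 ≤ 9 ∧
    ¬ ∀ k N : ℕ, 0 < k → 0 < N → N ≤ k ^ 2 → f k N = N * (N / k) / k := by
  have h1 : f 6 20 ≤ 9 := csSup_le' (by rintro m ⟨F, hF, rfl⟩; exact card_le F hF)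
  refine ⟨h1, fun h => ?_⟩
  have := h 6 20 (by norm_num) (by norm_num) (by norm_num)
  omega

end Pool.Agent.Results.MP_0bba66_co.Counter
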